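import Mathlib
import Pool.Agent.H304R2.Many
import Pool.Agent.H304R2.Count
import Pool.Agent.H304R2.Asym

set_option autoImplicit false

open Finset

namespace Pool.Agent.H186R2.Par

open Pool.Agent.H304R2

/-- the norm form and its special line modulo `p` -/
theorem Nm_line (b c r : ℤ) (v : ℤ × ℤ) :
    Nm b c v = v.2 ^ 2 * (r ^ 2 + b * r + c) + (v.1 - r * v.2) * v.2 * (2 * r + b) +
      (v.1 - r * v.2) ^ 2 := by
  simp only [Nm]; ring

section line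
variable {b c r p : ℤ} (hp : Prime p) (h1 : p ∣ 2 * r + b) (h2 : p ∣ r ^ 2 + b * r + c)

include hp h1 h2 in
theorem dvd_Nm_iff (v : ℤ × ℤ) : p ∣ Nm b c v ↔ p ∣ v.1 - r * v.2 := by
  rw [Nm_line b c r v]
  have e1 : p ∣ v.2 ^ 2 * (r ^ 2 + b * r + c) + (v.1 - r * v.2) * v.2 * (2 * r + b) :=
    dvd_add (Dvd.dvd.mul_left h2 _) (Dvd.dvd.mul_left h1 _)
  rw [Int.dvd_add_right e1]
  exact ⟨fun h => hp.dvd_of_dvd_pow h, fun h => dvd_pow h two_ne_zero⟩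

include hp h1 h2 in
theorem not_both {v w : ℤ × ℤ} (hd : dt v w = 1) (hv : p ∣ Nm b c v) : ¬ p ∣ Nm b c w := by
  intro hw
  rw [dvd_Nm_iff hp h1 h2] at hv hw
  have e : dt v w = (v.1 - r * v.2) * w.2 - (w.1 - r * w.2) * v.2 := by simp only [dt]; ring
  have : p ∣ dt v w := by
    rw [e]; exact dvd_sub (Dvd.dvd.mul_right hv _) (Dvd.dvd.mul_right hw _)
  rw [hd] at this
  exact hp.not_unit (isUnit_of_dvd_one this)

include hp h1 h2 in
theorem sq_not_dvd (h3 : ¬ p ^ 2 ∣ r ^ 2 + b * r + c) {v w : ℤ × ℤ} (hd : dt v w = 1 ∨ dt w v = 1)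
    (hv : p ∣ Nm b c v) : ¬ p ^ 2 ∣ Nm b c v := by
  intro hv2
  have hl := (dvd_Nm_iff hp h1 h2 v).mp hv
  rw [Nm_line b c r v] at hv2
  have e1 : p ^ 2 ∣ (v.1 - r * v.2) * v.2 * (2 * r + b) := by
    have : (v.1 - r * v.2) * v.2 * (2 * r + b) = ((v.1 - r * v.2) * (2 * r + b)) * v.2 := by ring
    rw [this, pow_two]
    exact Dvd.dvd.mul_right (mul_dvd_mul hl h1) _
  have e2 : p ^ 2 ∣ (v.1 - r * v.2) ^ 2 := pow_dvd_pow_of_dvd hl 2
  have e3 : p ^ 2 ∣ v.2 ^ 2 * (r ^ 2 + b * r + c) := by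
    have := dvd_sub (dvd_sub hv2 e2) e1
    have e4 : v.2 ^ 2 * (r ^ 2 + b * r + c) + (v.1 - r * v.2) * v.2 * (2 * r + b) +
      (v.1 - r * v.2) ^ 2 - (v.1 - r * v.2) ^ 2 - (v.1 - r * v.2) * v.2 * (2 * r + b) =
      v.2 ^ 2 * (r ^ 2 + b * r + c) := by ring
    rwa [e4] at this
  by_cases hv2' : p ∣ v.2
  · have hv1 : p ∣ v.1 := by
      have := dvd_add hl (Dvd.dvd.mul_left hv2' r)
      have e4 : v.1 - r * v.2 + r * v.2 = v.1 := by ring
      rwa [e4] at this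
    have e5 : p ∣ (1 : ℤ) := by
      rcases hd with hd | hd
      · rw [← hd]; simp only [dt]
        exact dvd_sub (Dvd.dvd.mul_right hv1 _) (Dvd.dvd.mul_right hv2' _)
      · rw [← hd]; simp only [dt]
        exact dvd_sub (Dvd.dvd.mul_left hv2' _) (Dvd.dvd.mul_left hv1 _)
    exact hp.not_unit (isUnit_of_dvd_one e5)
  · have hco : IsCoprime (p ^ 2) (v.2 ^ 2) := by
      apply IsCoprime.pow
      exact (Prime.coprime_iff_not_dvd hp).mpr hv2'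
    exact h3 (hco.dvd_of_dvd_mul_left e3)

end line

/-- the cone predicate -/
def Cn (b : ℤ) (lo H R : ℝ) (v : ℤ × ℤ) : Prop :=
  0 < v.2 ∧ ((|v.1| : ℤ) : ℝ) ≤ R ∧ ((|v.2| : ℤ) : ℝ) ≤ R ∧ lo ≤ sl b v ∧ sl b v ≤ H

theorem Cn.add {b : ℤ} {lo H R S : ℝ} {v w : ℤ × ℤ} (hv : Cn b lo H R v) (hw : Cn b lo H S w) :
    Cn b lo H (R + S) (v + w) := by
  obtain ⟨a3, a5, a6, a9, a10⟩ := hv
  obtain ⟨a4, a7, a8, a11, a12⟩ := hw
  have hv2 : (0 : ℝ) < v.2 := by exact_mod_cast a3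
  have hw2 : (0 : ℝ) < w.2 := by exact_mod_cast a4
  have hv1 : (v.1 : ℝ) = v.2 * (sl b v - b / 2) := by
    unfold sl; field_simp; ring
  have hw1 : (w.1 : ℝ) = w.2 * (sl b w - b / 2) := by
    unfold sl; field_simp; ring
  have hsl : sl b (v + w) = (v.2 * sl b v + w.2 * sl b w) / (v.2 + w.2) := by
    have : sl b (v + w) = ((v.1 : ℝ) + w.1) / (v.2 + w.2) + b / 2 := by
      unfold sl
      simp only [Prod.fst_add, Prod.snd_add]
      push_cast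
      rfl
    rw [this, hv1, hw1]
    have hne : (v.2 : ℝ) + w.2 ≠ 0 := by linarith
    field_simp
    ring
  refine ⟨?_, ?_, ?_, ?_, ?_⟩
  · show 0 < v.2 + w.2
    omega
  · have h3 : |(v + w).1| ≤ |v.1| + |w.1| := abs_add_le _ _
    have h4 : ((|(v + w).1| : ℤ) : ℝ) ≤ ((|v.1| + |w.1| : ℤ) : ℝ) := by exact_mod_cast h3
    rw [Int.cast_add] at h4
    linarith
  · have h3 : |(v + w).2| ≤ |v.2| + |w.2| := abs_add_le _ _
    have h4 : ((|(v + w).2| : ℤ) : ℝ) ≤ ((|v.2| + |w.2| : ℤ) : ℝ) := by exact_mod_cast h3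
    rw [Int.cast_add] at h4
    linarith
  · rw [hsl, le_div_iff₀ (by linarith)]
    nlinarith
  · rw [hsl, div_le_iff₀ (by linarith)]
    nlinarith

theorem Cn.mono {b : ℤ} {lo H R S : ℝ} {v : ℤ × ℤ} (hv : Cn b lo H R v) (h : R ≤ S) :
    Cn b lo H S v :=
  ⟨hv.1, hv.2.1.trans h, hv.2.2.1.trans h, hv.2.2.2.1, hv.2.2.2.2⟩

/-- the seven edges that may come from an edge -/
theorem fiber_aux (E : Finset ((ℤ × ℤ) × (ℤ × ℤ))) (F : (ℤ × ℤ) × (ℤ × ℤ) → (ℤ × ℤ) × (ℤ × ℤ))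
    (hF : ∀ e ∈ E, F e = e ∨ F e = (e.1, e.1 + e.2) ∨ F e = (e.1 + e.2, e.2) ∨
      F e = (e.1, e.1 + (e.1 + e.2)) ∨ F e = (e.1 + (e.1 + e.2), e.1 + e.2) ∨
      F e = (e.1 + e.2, (e.1 + e.2) + e.2) ∨ F e = ((e.1 + e.2) + e.2, e.2)) :
    E.card ≤ 7 * (E.image F).card := by
  classical
  refine card_le_mul_card_image (f := F) E 7 ?_
  intro e' _
  have hsub : E.filter (fun e => F e = e') ⊆
      {e', (e'.1, e'.2 - e'.1), (e'.1 - e'.2, e'.2), (e'.1, e'.2 - e'.1 - e'.1),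
        (e'.1 - e'.2, e'.2 - (e'.1 - e'.2)), (e'.1 - (e'.2 - e'.1), e'.2 - e'.1),
        (e'.1 - e'.2 - e'.2, e'.2)} := by
    intro e he
    rw [mem_filter] at he
    obtain ⟨heE, he⟩ := he
    simp only [mem_insert, mem_singleton]
    rcases hF e heE with h | h | h | h | h | h | h <;> rw [h] at he
    · left; exact he
    · right; left; rw [← he]; simp
    · right; right; left; rw [← he]; simp
    · right; right; right; left; rw [← he]
      ext <;> simp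
    · right; right; right; right; left; rw [← he]
      ext <;> simp
    · right; right; right; right; right; left; rw [← he]
      ext <;> simp
    · right; right; right; right; right; right; rw [← he]
      ext <;> simp
  refine (card_le_card hsub).trans ?_
  refine (card_insert_le _ _).trans ?_
  have := card_insert_le (e'.1, e'.2 - e'.1) ({(e'.1 - e'.2, e'.2), (e'.1, e'.2 - e'.1 - e'.1),
        (e'.1 - e'.2, e'.2 - (e'.1 - e'.2)), (e'.1 - (e'.2 - e'.1), e'.2 - e'.1),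
        (e'.1 - e'.2 - e'.2, e'.2)} : Finset ((ℤ × ℤ) × (ℤ × ℤ)))
  have := card_insert_le (e'.1 - e'.2, e'.2) ({(e'.1, e'.2 - e'.1 - e'.1),
        (e'.1 - e'.2, e'.2 - (e'.1 - e'.2)), (e'.1 - (e'.2 - e'.1), e'.2 - e'.1),
        (e'.1 - e'.2 - e'.2, e'.2)} : Finset ((ℤ × ℤ) × (ℤ × ℤ)))
  have := card_insert_le (e'.1, e'.2 - e'.1 - e'.1) ({
        (e'.1 - e'.2, e'.2 - (e'.1 - e'.2)), (e'.1 - (e'.2 - e'.1), e'.2 - e'.1),
        (e'.1 - e'.2 - e'.2, e'.2)} : Finset ((ℤ × ℤ) × (ℤ × ℤ)))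
  have := card_insert_le (e'.1 - e'.2, e'.2 - (e'.1 - e'.2)) ({
        (e'.1 - (e'.2 - e'.1), e'.2 - e'.1),
        (e'.1 - e'.2 - e'.2, e'.2)} : Finset ((ℤ × ℤ) × (ℤ × ℤ)))
  have := card_insert_le (e'.1 - (e'.2 - e'.1), e'.2 - e'.1) ({
        (e'.1 - e'.2 - e'.2, e'.2)} : Finset ((ℤ × ℤ) × (ℤ × ℤ)))
  have := card_singleton ((e'.1 - e'.2 - e'.2, e'.2) : (ℤ × ℤ) × (ℤ × ℤ))
  omega

end Pool.Agent.H186R2.Par
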