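import Mathlib
import Pool.Agent.H186R2.Par.ClassC

set_option autoImplicit false

open Finset

namespace Pool.Agent.H186R2.Par

open Pool.Agent.H304R2

/-- edges with a special end point and a sign change -/
def GE (b c p : ℤ) (φ : ℤ × ℤ → ℤ) (lo H R : ℝ) (e : (ℤ × ℤ) × (ℤ × ℤ)) : Prop :=
  dt e.1 e.2 = 1 ∧ φ e.1 ≠ φ e.2 ∧ (p ∣ Nm b c e.1 ∨ p ∣ Nm b c e.2) ∧
    Cn b lo H R e.1 ∧ Cn b lo H R e.2

theorem third_aux (p x y : ℤ) (h23 : p = 2 ∨ p = 3) (hx : ¬ p ∣ x) (hy : ¬ p ∣ y)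
    (hxy : ¬ p ∣ x + y) : p ∣ x + (x + y) ∧ p ∣ x + y + y := by
  rcases h23 with rfl | rfl
  · constructor <;> omega
  · have h1 : x % 3 = 1 ∨ x % 3 = 2 := by omega
    have h2 : y % 3 = 1 ∨ y % 3 = 2 := by omega
    rcases h1 with h1 | h1 <;> rcases h2 with h2 | h2 <;> constructor <;> omega

theorem third (r p : ℤ) (h23 : p = 2 ∨ p = 3) (v w : ℤ × ℤ) (hv : ¬ p ∣ v.1 - r * v.2)
    (hw : ¬ p ∣ w.1 - r * w.2) (hvw : ¬ p ∣ (v + w).1 - r * (v + w).2) :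
    p ∣ (v + (v + w)).1 - r * (v + (v + w)).2 ∧ p ∣ (v + w + w).1 - r * (v + w + w).2 := by
  have e1 : (v + w).1 - r * (v + w).2 = (v.1 - r * v.2) + (w.1 - r * w.2) := by
    simp only [Prod.fst_add, Prod.snd_add]; ring
  have e2 : (v + (v + w)).1 - r * (v + (v + w)).2 =
      (v.1 - r * v.2) + ((v.1 - r * v.2) + (w.1 - r * w.2)) := by
    simp only [Prod.fst_add, Prod.snd_add]; ring
  have e3 : (v + w + w).1 - r * (v + w + w).2 =
      (v.1 - r * v.2) + (w.1 - r * w.2) + (w.1 - r * w.2) := by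
    simp only [Prod.fst_add, Prod.snd_add]; ring
  rw [e1] at hvw
  rw [e2, e3]
  exact third_aux p _ _ h23 hv hw hvw

theorem conv (b c r p : ℤ) (hp : Prime p) (h23 : p = 2 ∨ p = 3) (h1 : p ∣ 2 * r + b)
    (h2 : p ∣ r ^ 2 + b * r + c) (φ : ℤ × ℤ → ℤ) (lo H R : ℝ) (hR : 0 ≤ R)
    (E : Finset ((ℤ × ℤ) × (ℤ × ℤ)))
    (hE : ∀ e ∈ E, dt e.1 e.2 = 1 ∧ φ e.1 ≠ φ e.2 ∧ Cn b lo H R e.1 ∧ Cn b lo H R e.2) :
    ∃ E' : Finset ((ℤ × ℤ) × (ℤ × ℤ)), E.card ≤ 7 * E'.card ∧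
      ∀ e ∈ E', GE b c p φ lo H (3 * R) e := by
  classical
  set F : (ℤ × ℤ) × (ℤ × ℤ) → (ℤ × ℤ) × (ℤ × ℤ) := fun e =>
    if p ∣ Nm b c e.1 ∨ p ∣ Nm b c e.2 then e
    else if p ∣ Nm b c (e.1 + e.2) then
      (if φ e.1 ≠ φ (e.1 + e.2) then (e.1, e.1 + e.2) else (e.1 + e.2, e.2))
    else if φ e.1 ≠ φ (e.1 + (e.1 + e.2)) then (e.1, e.1 + (e.1 + e.2))
    else if φ (e.1 + (e.1 + e.2)) ≠ φ (e.1 + e.2) then (e.1 + (e.1 + e.2), e.1 + e.2)
    else if φ (e.1 + e.2) ≠ φ (e.1 + e.2 + e.2) then (e.1 + e.2, e.1 + e.2 + e.2)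
    else (e.1 + e.2 + e.2, e.2) with hF
  refine ⟨E.image F, fiber_aux E F ?_, ?_⟩
  · intro e he
    simp only [hF]
    split_ifs <;> simp
  · intro e' he'
    rw [mem_image] at he'
    obtain ⟨e, he, rfl⟩ := he'
    obtain ⟨a1, a2, a3, a4⟩ := hE e he
    have a5 : Cn b lo H (2 * R) (e.1 + e.2) := (a3.add a4).mono (by linarith)
    have a6 : Cn b lo H (3 * R) (e.1 + (e.1 + e.2)) := (a3.add a5).mono (by linarith)
    have a7 : Cn b lo H (3 * R) (e.1 + e.2 + e.2) := (a5.add a4).mono (by linarith)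
    have a3' := a3.mono (by linarith : R ≤ 3 * R)
    have a4' := a4.mono (by linarith : R ≤ 3 * R)
    have a5' := a5.mono (by linarith : 2 * R ≤ 3 * R)
    have d1 : dt e.1 (e.1 + e.2) = 1 := by
      rw [← a1]; simp only [dt, Prod.fst_add, Prod.snd_add]; ring
    have d2 : dt (e.1 + e.2) e.2 = 1 := by
      rw [← a1]; simp only [dt, Prod.fst_add, Prod.snd_add]; ring
    have d3 : dt e.1 (e.1 + (e.1 + e.2)) = 1 := by
      rw [← a1]; simp only [dt, Prod.fst_add, Prod.snd_add]; ring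
    have d4 : dt (e.1 + (e.1 + e.2)) (e.1 + e.2) = 1 := by
      rw [← a1]; simp only [dt, Prod.fst_add, Prod.snd_add]; ring
    have d5 : dt (e.1 + e.2) (e.1 + e.2 + e.2) = 1 := by
      rw [← a1]; simp only [dt, Prod.fst_add, Prod.snd_add]; ring
    have d6 : dt (e.1 + e.2 + e.2) e.2 = 1 := by
      rw [← a1]; simp only [dt, Prod.fst_add, Prod.snd_add]; ring
    simp only [hF]
    by_cases c1 : p ∣ Nm b c e.1 ∨ p ∣ Nm b c e.2
    · rw [if_pos c1]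
      exact ⟨a1, a2, c1, a3', a4'⟩
    · rw [if_neg c1]
      by_cases c2 : p ∣ Nm b c (e.1 + e.2)
      · rw [if_pos c2]
        by_cases c3 : φ e.1 ≠ φ (e.1 + e.2)
        · rw [if_pos c3]
          exact ⟨d1, c3, Or.inr c2, a3', a5'⟩
        · rw [if_neg c3]
          push Not at c3
          exact ⟨d2, by rw [← c3]; exact a2, Or.inl c2, a5', a4'⟩
      · rw [if_neg c2]
        have c1' : ¬ p ∣ Nm b c e.1 ∧ ¬ p ∣ Nm b c e.2 := by
          constructor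
          · intro h; exact c1 (Or.inl h)
          · intro h; exact c1 (Or.inr h)
        have h3 := third r p h23 e.1 e.2 (by rw [← dvd_Nm_iff hp h1 h2]; exact c1'.1)
          (by rw [← dvd_Nm_iff hp h1 h2]; exact c1'.2) (by rw [← dvd_Nm_iff hp h1 h2]; exact c2)
        rw [← dvd_Nm_iff hp h1 h2, ← dvd_Nm_iff hp h1 h2] at h3
        by_cases c3 : φ e.1 ≠ φ (e.1 + (e.1 + e.2))
        · rw [if_pos c3]
          exact ⟨d3, c3, Or.inr h3.1, a3', a6⟩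
        · rw [if_neg c3]
          push Not at c3
          by_cases c4 : φ (e.1 + (e.1 + e.2)) ≠ φ (e.1 + e.2)
          · rw [if_pos c4]
            exact ⟨d4, c4, Or.inl h3.1, a6, a5'⟩
          · rw [if_neg c4]
            push Not at c4
            by_cases c5 : φ (e.1 + e.2) ≠ φ (e.1 + e.2 + e.2)
            · rw [if_pos c5]
              exact ⟨d5, c5, Or.inr h3.2, a5', a7⟩
            · rw [if_neg c5]
              push Not at c5
              exact ⟨d6, by rw [← c5, ← c4, ← c3]; exact a2, Or.inl h3.2, a7, a4'⟩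

/-- the weighted function -/
def gt (g : ℕ → ℤ) (p : ℕ) (n : ℕ) : ℤ := g n * 2 ^ (padicValNat p n)

theorem gt_mul (g : ℕ → ℤ) (p : ℕ) (hp : p.Prime)
    (hg1 : ∀ m n, m ≠ 0 → n ≠ 0 → g (m * n) = g m * g n) (m n : ℕ) (hm : m ≠ 0) (hn : n ≠ 0) :
    gt g p (m * n) = gt g p m * gt g p n := by
  have := Fact.mk hp
  unfold gt
  rw [hg1 m n hm hn, padicValNat.mul hm hn, pow_add]
  ring

theorem gt_eq (g : ℕ → ℤ) (p : ℕ) (n : ℕ) (hn : n ≠ 0)
    (hg2 : ∀ n, n ≠ 0 → g n = 1 ∨ g n = -1) (h : gt g p n = -2) : p ∣ n ∧ g n = -1 := by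
  unfold gt at h
  rcases hg2 n hn with h1 | h1
  · exfalso
    rw [h1, one_mul] at h
    have : (0 : ℤ) < 2 ^ (padicValNat p n) := by positivity
    omega
  · refine ⟨?_, h1⟩
    rw [h1] at h
    by_contra hc
    rw [padicValNat.eq_zero_of_not_dvd hc] at h
    norm_num at h

theorem val_one (p : ℕ) (hp : p.Prime) (z : ℤ) (hz : z ≠ 0) (h1 : (p : ℤ) ∣ z)
    (h2 : ¬ (p : ℤ) ^ 2 ∣ z) : padicValNat p z.natAbs = 1 := by
  have := Fact.mk hp
  have hz' : z.natAbs ≠ 0 := Int.natAbs_ne_zero.mpr hz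
  have a1 : p ∣ z.natAbs := Int.natCast_dvd.mp h1
  have a2 : ¬ p ^ 2 ∣ z.natAbs := by
    intro h
    apply h2
    have := Int.natCast_dvd.mpr h
    exact_mod_cast this
  have b1 : 1 ≤ padicValNat p z.natAbs := one_le_padicValNat_of_dvd hz' a1
  have b2 : ¬ 2 ≤ padicValNat p z.natAbs := by
    intro h
    exact a2 ((padicValNat_dvd_iff_le hz').mpr h)
  omega

theorem val_zero (p : ℕ) (z : ℤ) (h1 : ¬ (p : ℤ) ∣ z) : padicValNat p z.natAbs = 0 := by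
  apply padicValNat.eq_zero_of_not_dvd
  intro h
  exact h1 (Int.natCast_dvd.mpr h)

end Pool.Agent.H186R2.Par
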