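import Mathlib
import Pool.Agent.H186R2.Par.ClassC2

set_option autoImplicit false

open Finset

namespace Pool.Agent.H186R2.Par

open Pool.Agent.H304R2

theorem mainC (b c r : ℤ) (p : ℕ) (hp : p.Prime) (h23 : p = 2 ∨ p = 3)
    (hD : ¬ IsSquare (b ^ 2 - 4 * c)) (hr1 : (p : ℤ) ∣ 2 * r + b)
    (hr2 : (p : ℤ) ∣ r ^ 2 + b * r + c) (hr3 : ¬ (p : ℤ) ^ 2 ∣ r ^ 2 + b * r + c)
    (x y : ℤ) (hx : 0 < x) (hy : 0 < y)
    (hxy : 0 < x ^ 2 - (b ^ 2 - 4 * c) * y ^ 2) (ε : ℝ) (hε : 0 < ε) :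
    ∃ N0 : ℕ, ∀ N : ℕ, N0 ≤ N → ∀ g : ℕ → ℤ,
      (∀ m n, m ≠ 0 → n ≠ 0 → g (m * n) = g m * g n) →
      (∀ n, n ≠ 0 → g n = 1 ∨ g n = -1) →
      g (x ^ 2 - (b ^ 2 - 4 * c) * y ^ 2).natAbs = -1 →
      (N : ℝ) ^ (1 - ε) ≤
      (((Finset.Icc 1 N).filter (fun n : ℕ => (p : ℤ) ∣ ff b c n ∧
        g (ff b c n).natAbs = -1)).card : ℝ) := by
  classical
  have hpz : Prime (p : ℤ) := Nat.prime_iff_prime_int.mp hp
  have h23' : (p : ℤ) = 2 ∨ (p : ℤ) = 3 := by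
    rcases h23 with h | h
    · left; exact_mod_cast h
    · right; exact_mod_cast h
  have hNα : Nm b c (x - b * y, 2 * y) = x ^ 2 - (b ^ 2 - 4 * c) * y ^ 2 := by
    simp only [Nm]; ring
  have hNne : ∀ t : ℤ × ℤ, 0 < Nm b c t → t ≠ 0 := by
    rintro t ht rfl
    simp [Nm] at ht
  obtain ⟨j, hj1, hjε⟩ : ∃ j : ℕ, 1 ≤ j ∧ 3 < ε * (j + 3) := by
    refine ⟨⌈3 / ε⌉₊ + 1, by omega, ?_⟩
    have h1 : 3 / ε ≤ (⌈3 / ε⌉₊ : ℝ) := Nat.le_ceil _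
    rw [div_le_iff₀ hε] at h1
    push_cast
    nlinarith
  obtain ⟨lo, H, C, c0, hlo, hloa, hC, hc0, Y0, hmain⟩ := many_edges b c
    (x - b * y, 2 * y) (by rw [hNα]; exact hxy)
    (by simp only; omega) (by
      unfold tp
      push_cast
      have : ((x : ℝ) - b * y + b * (2 * y) / 2) = x := by ring
      rw [this]; exact_mod_cast hx) j
  obtain ⟨C9, C10, hC9, hC10, hcount⟩ := count_from_edges b c hD lo H (3 * C) hlo hloa
    (by positivity) (j + 3) (by omega)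
  obtain ⟨N0, hN0⟩ := final_asym (c0 / (7 * C9)) C10 (|(b : ℝ)| + 1) ε j (j + 3) (by positivity)
    hC10 (by omega) hj1 (by push_cast; nlinarith) (Y0 + 1)
  refine ⟨N0, ?_⟩
  intro N hN g hg1 hg2 hgα
  apply hN0 N hN
  intro Y hY hYN
  set φ := fi b c g with hφ
  have hφ1 : ∀ v : ℤ × ℤ, 0 < v.2 → φ v = 1 ∨ φ v = -1 := fun v hv =>
    fi_val hD hg2 v (two_snd_pos v hv)
  obtain ⟨E, hE1, hE2⟩ := hmain Y (by omega) φ
    (fun k v hk hv => fi_smul hD hg1 hg2 k v hk hv)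
    (fun t v ht hv => fi_mu hD hg1 t v (hNne t ht) (two_snd_pos v hv))
    hφ1 (fun t => fi_cj t) (fun t ht => fi_val hD hg2 t (hNne t ht))
    (by rw [hφ]; unfold fi; rw [hNα]; exact hgα)
  obtain ⟨E', hE'1, hE'2⟩ := conv b c r p hpz h23' hr1 hr2 φ lo H (C * (Y : ℝ) ^ (j + 3))
    (by positivity) E (by
      intro e he
      obtain ⟨a1, a2, a3, a4, ⟨a5, a6, a7, a8⟩, ⟨a9, a10⟩, ⟨a11, a12⟩⟩ := hE2 e he
      exact ⟨a1, a2, ⟨a3, a5, a6, a9, a10⟩, ⟨a4, a7, a8, a11, a12⟩⟩)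
  have hpadic : ∀ e ∈ E', padicValNat p (Nm b c e.1).natAbs + padicValNat p (Nm b c e.2).natAbs = 1 := by
    intro e he
    obtain ⟨a1, a2, a3, a4, a5⟩ := hE'2 e he
    have n1 := Nm_ne_zero b c hD e.1 (two_snd_pos _ a4.1)
    have n2 := Nm_ne_zero b c hD e.2 (two_snd_pos _ a5.1)
    rcases a3 with h | h
    · have h' := not_both hpz hr1 hr2 a1 h
      have h'' := sq_not_dvd hpz hr1 hr2 hr3 (Or.inl a1) h
      rw [val_one p hp _ n1 h h'', val_zero p _ h']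
    · have h' : ¬ (p : ℤ) ∣ Nm b c e.1 := fun h'' => not_both hpz hr1 hr2 a1 h'' h
      have h'' := sq_not_dvd hpz hr1 hr2 hr3 (Or.inr a1) h
      rw [val_one p hp _ n2 h h'', val_zero p _ h']
  have h2 := hcount Y (by omega) (gt g p) (gt_mul g p hp hg1) (-2) E' (by
    intro e he
    obtain ⟨a1, a2, a3, a4, a5⟩ := hE'2 e he
    have hpad := hpadic e he
    obtain ⟨b1, b2, b3, b4, b5⟩ := a4
    obtain ⟨c1, c2, c3, c4, c5⟩ := a5
    refine ⟨a1, ?_, b1, c1, ⟨by linarith, by linarith, by linarith, by linarith⟩, ⟨b4, b5⟩,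
      ⟨c4, c5⟩⟩
    have e1 : fi b c (gt g p) e.1 * fi b c (gt g p) e.2 =
        (φ e.1 * φ e.2) * 2 ^ (padicValNat p (Nm b c e.1).natAbs +
          padicValNat p (Nm b c e.2).natAbs) := by
      rw [pow_add, hφ]; unfold fi gt; ring
    rw [e1, hpad]
    rcases hφ1 e.1 b1 with h | h <;> rcases hφ1 e.2 c1 with h' | h' <;> rw [h, h'] at a2 ⊢ <;>
      simp at a2 ⊢) N hYN
  have hsub : ((Icc 1 N).filter (fun n : ℕ => gt g p (ff b c n).natAbs = -2)) ⊆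
      ((Icc 1 N).filter (fun n : ℕ => (p : ℤ) ∣ ff b c n ∧ g (ff b c n).natAbs = -1)) := by
    intro n hn
    rw [mem_filter] at hn ⊢
    refine ⟨hn.1, ?_⟩
    have hf0 : (ff b c n).natAbs ≠ 0 := by
      rw [Int.natAbs_ne_zero]
      intro h0
      unfold ff at h0
      exact hD ⟨2 * n + b, by linarith⟩
    have h3 := gt_eq g p _ hf0 hg2 hn.2
    exact ⟨Int.natCast_dvd.mpr h3.1, h3.2⟩
  have h3 : (((Icc 1 N).filter (fun n : ℕ => gt g p (ff b c n).natAbs = -2)).card : ℝ) ≤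
      (((Icc 1 N).filter (fun n : ℕ => (p : ℤ) ∣ ff b c n ∧
        g (ff b c n).natAbs = -1)).card : ℝ) := by
    exact_mod_cast card_le_card hsub
  have hYr : (1 : ℝ) ≤ Y := by
    have : 1 ≤ Y := by omega
    exact_mod_cast this
  have h4 : c0 / 7 * (Y : ℝ) ^ (2 * j + 1) ≤ E'.card := by
    have h5 : (E.card : ℝ) ≤ 7 * E'.card := by exact_mod_cast hE'1
    linarith
  have h5 := h4.trans h2
  have h6 : c0 / 7 * (Y : ℝ) ^ (2 * j + 1) = C9 * Y * (c0 / (7 * C9) * (Y : ℝ) ^ (2 * j)) := by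
    rw [pow_succ]; field_simp
  rw [h6] at h5
  have h7 := le_of_mul_le_mul_left h5 (by positivity)
  linarith

end Pool.Agent.H186R2.Par
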