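import Mathlib
import Pool.Agent.H186R2.Par.ClassC3
import Pool.Agent.H304R2.Lam
import Pool.Agent.H304R2.Sqf3

set_option autoImplicit false

open Finset Filter

namespace Pool.Agent.H186R2.Par

open Pool.Agent.H304R2

/-- Liouville function -/
def lam (n : ℕ) : ℤ := (-1 : ℤ) ^ (ArithmeticFunction.cardFactors n)

/-- Liouville function twisted at the prime `p` -/
def lamp (p n : ℕ) : ℤ := lam n * (-1 : ℤ) ^ (padicValNat p n)

theorem lam_mul' (m n : ℕ) (hm : m ≠ 0) (hn : n ≠ 0) : lam (m * n) = lam m * lam n :=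
  lam_mul m n hm hn

theorem lamp_mul (p : ℕ) (hp : p.Prime) (m n : ℕ) (hm : m ≠ 0) (hn : n ≠ 0) :
    lamp p (m * n) = lamp p m * lamp p n := by
  have := Fact.mk hp
  unfold lamp
  rw [lam_mul' m n hm hn, padicValNat.mul hm hn, pow_add]
  ring

theorem lam_val (n : ℕ) : lam n = 1 ∨ lam n = -1 := neg_one_pow_eq_or ℤ _

theorem lamp_val (p n : ℕ) : lamp p n = 1 ∨ lamp p n = -1 := by
  unfold lamp
  rcases lam_val n with h | h <;> rcases neg_one_pow_eq_or ℤ (padicValNat p n) with h' | h' <;>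
    rw [h, h'] <;> simp

theorem lam_prime (p : ℕ) (hp : p.Prime) : lam p = -1 := by
  unfold lam
  rw [ArithmeticFunction.cardFactors_apply_prime hp]; norm_num

/-- both signs of the Liouville function at `3k²+3k+1` -/
theorem cuban_lam (e : ℤ) (he : e = 1 ∨ e = -1) (ε : ℝ) (hε : 0 < ε) :
    ∃ N0 : ℕ, ∀ N : ℕ, N0 ≤ N → (N : ℝ) ^ (1 - ε) ≤
      (((Finset.Icc 1 N).filter (fun n : ℕ => lam (3 * n ^ 2 + 3 * n + 1) = e)).card : ℝ) := by
  have hD : ¬ IsSquare ((1 : ℤ) ^ 2 - 4 * 1) := by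
    rintro ⟨z, hz⟩
    nlinarith [mul_self_nonneg z]
  have hp3 : Nat.Prime 3 := by norm_num
  have h7 : ((2 : ℤ) ^ 2 - (1 ^ 2 - 4 * 1) * 1 ^ 2).natAbs = 7 := by norm_num
  have hp7 : Nat.Prime 7 := by norm_num
  set δ := min ε 1 with hδ
  have hδ0 : 0 < δ := lt_min hε one_pos
  have hδ1 : δ ≤ 1 := min_le_right _ _
  have hδε : δ ≤ ε := min_le_left _ _
  obtain ⟨N1, hN1⟩ := mainC 1 1 1 3 hp3 (Or.inr rfl) hD (by norm_num) (by norm_num)
    (by norm_num) 2 1 (by norm_num) (by norm_num) (by norm_num) (δ / 2) (by positivity)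
  have hev := ev_pow 2 (1 - δ) (1 - δ / 2) (by linarith)
  -- choose the function
  obtain ⟨g, hg1, hg2, hg7, hge⟩ : ∃ g : ℕ → ℤ, (∀ m n, m ≠ 0 → n ≠ 0 → g (m * n) = g m * g n) ∧
      (∀ n, n ≠ 0 → g n = 1 ∨ g n = -1) ∧ g 7 = -1 ∧
      (∀ m, ¬ 3 ∣ m → g (3 * m) = -1 → lam m = e) := by
    rcases he with rfl | rfl
    · refine ⟨lam, lam_mul', fun n _ => lam_val n, lam_prime 7 hp7, ?_⟩
      intro m hm h
      have hm0 : m ≠ 0 := by rintro rfl; exact hm (dvd_zero _)
      rw [lam_mul' 3 m (by norm_num) hm0, lam_prime 3 hp3] at h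
      linarith
    · refine ⟨lamp 3, lamp_mul 3 hp3, fun n _ => lamp_val 3 n, ?_, ?_⟩
      · unfold lamp
        rw [lam_prime 7 hp7, padicValNat.eq_zero_of_not_dvd (by norm_num)]
        norm_num
      · intro m hm h
        have hm0 : m ≠ 0 := by rintro rfl; exact hm (dvd_zero _)
        have := Fact.mk hp3
        rw [lamp_mul 3 hp3 3 m (by norm_num) hm0] at h
        unfold lamp at h
        rw [lam_prime 3 hp3, padicValNat.self (by norm_num), padicValNat.eq_zero_of_not_dvd hm] at h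
        norm_num at h
        exact h
  have key : ∀ᶠ N : ℕ in atTop, (N : ℝ) ^ (1 - ε) ≤
      (((Finset.Icc 1 N).filter (fun n : ℕ => lam (3 * n ^ 2 + 3 * n + 1) = e)).card : ℝ) := by
    filter_upwards [hev, eventually_ge_atTop N1, eventually_ge_atTop 1] with N h1 h2 h3
    have h4 := hN1 N h2 g hg1 hg2 (by rw [h7]; exact hg7)
    have hcard : (((Icc 1 N).filter (fun n : ℕ => ((3 : ℕ) : ℤ) ∣ ff 1 1 n ∧
        g (ff 1 1 n).natAbs = -1)).card) ≤
        ((Finset.Icc 1 N).filter (fun n : ℕ => lam (3 * n ^ 2 + 3 * n + 1) = e)).card + 1 := by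
      have hsub : ((Icc 1 N).filter (fun n : ℕ => ((3 : ℕ) : ℤ) ∣ ff 1 1 n ∧
          g (ff 1 1 n).natAbs = -1)) ⊆
          insert 1 (((Finset.Icc 1 N).filter (fun n : ℕ => lam (3 * n ^ 2 + 3 * n + 1) = e)).image
            (fun k => 3 * k + 1)) := by
        intro n hn
        rw [mem_filter, mem_Icc] at hn
        obtain ⟨⟨hn1, hn2⟩, hn3, hn4⟩ := hn
        have hmod : n % 3 = 1 := by
          unfold ff at hn3
          have h5 : ((3 : ℕ) : ℤ) ∣ (n : ℤ) * n + n + 1 := by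
            have : (n : ℤ) * n + n + 1 = (n : ℤ) ^ 2 + 1 * n + 1 := by ring
            rw [this]; exact hn3
          have h6 : 3 ∣ n * n + n + 1 := by exact_mod_cast h5
          have h7 : n % 3 = 0 ∨ n % 3 = 1 ∨ n % 3 = 2 := by omega
          rcases h7 with h7 | h7 | h7
          · exfalso
            have : (n * n + n + 1) % 3 = 1 := by
              rw [Nat.add_mod, Nat.add_mod (n * n), Nat.mul_mod, h7]
            omega
          · exact h7
          · exfalso
            have : (n * n + n + 1) % 3 = 1 := by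
              rw [Nat.add_mod, Nat.add_mod (n * n), Nat.mul_mod, h7]
            omega
        obtain ⟨k, rfl⟩ : ∃ k, n = 3 * k + 1 := ⟨n / 3, by omega⟩
        rw [mem_insert, mem_image]
        rcases Nat.eq_zero_or_pos k with hk | hk
        · left; rw [hk]
        · right
          refine ⟨k, ?_, rfl⟩
          rw [mem_filter, mem_Icc]
          refine ⟨⟨hk, by omega⟩, ?_⟩
          apply hge
          · intro h
            have h8 : (3 * k ^ 2 + 3 * k + 1) % 3 = 1 := by omega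
            omega
          · have e1 : (ff 1 1 ((3 * k + 1 : ℕ) : ℤ)).natAbs = 3 * (3 * k ^ 2 + 3 * k + 1) := by
              have : ff 1 1 ((3 * k + 1 : ℕ) : ℤ) = ((3 * (3 * k ^ 2 + 3 * k + 1) : ℕ) : ℤ) := by
                unfold ff; push_cast; ring
              rw [this, Int.natAbs_natCast]
            rw [← e1]; exact hn4
      refine (card_le_card hsub).trans ((card_insert_le _ _).trans ?_)
      exact Nat.add_le_add_right card_image_le _
    have hcard' : ((((Icc 1 N).filter (fun n : ℕ => ((3 : ℕ) : ℤ) ∣ ff 1 1 n ∧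
        g (ff 1 1 n).natAbs = -1)).card : ℕ) : ℝ) ≤
        ((Finset.Icc 1 N).filter (fun n : ℕ => lam (3 * n ^ 2 + 3 * n + 1) = e)).card + 1 := by
      exact_mod_cast hcard
    have hNr : (1 : ℝ) ≤ N := by exact_mod_cast h3
    have h5 : (1 : ℝ) ≤ (N : ℝ) ^ (1 - δ) := Real.one_le_rpow hNr (by linarith)
    have h6 : (N : ℝ) ^ (1 - ε) ≤ (N : ℝ) ^ (1 - δ) :=
      Real.rpow_le_rpow_of_exponent_le hNr (by linarith)
    have h7 := h4.trans hcard'
    linarith
  exact eventually_atTop.mp key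

open Classical in
/-- nearly squarefree values of `3k²+3k+1` with prescribed Moebius sign -/
theorem cuban_mu (e : ℤ) (he : e = 1 ∨ e = -1) (ε : ℝ) (hε : 0 < ε) :
    ∃ N0 : ℕ, ∀ N : ℕ, N0 ≤ N → (N : ℝ) ^ (1 - ε) ≤
      (((Finset.Icc 1 N).filter (fun n : ℕ => ∃ s m : ℕ,
        3 * n ^ 2 + 3 * n + 1 = s ^ 2 * m ∧ (s : ℝ) ≤ (N : ℝ) ^ ε ∧
          ArithmeticFunction.moebius m = e)).card : ℝ) := by
  set δ := min ε 1 with hδ
  have hδ0 : 0 < δ := lt_min hε one_pos
  have hδ1 : δ ≤ 1 := min_le_right _ _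
  have hδε : δ ≤ ε := min_le_left _ _
  have hD3 : ¬ IsSquare (-3 : ℤ) := by
    rintro ⟨z, hz⟩
    nlinarith [mul_self_nonneg z]
  obtain ⟨N1, hN1⟩ := cuban_lam e he (δ / 64) (by positivity)
  obtain ⟨N2, hN2⟩ := eventually_atTop.mp (sqf_exc (-3) hD3 (δ / 2) (by linarith) (by linarith))
  have hev := ev_pow 4 (1 - δ / 32) (1 - δ / 64) (by linarith)
  have key : ∀ᶠ N : ℕ in atTop, (N : ℝ) ^ (1 - ε) ≤
      (((Finset.Icc 1 N).filter (fun n : ℕ => ∃ s m : ℕ,
        3 * n ^ 2 + 3 * n + 1 = s ^ 2 * m ∧ (s : ℝ) ≤ (N : ℝ) ^ ε ∧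
          ArithmeticFunction.moebius m = e)).card : ℝ) := by
    filter_upwards [hev, eventually_ge_atTop N1, eventually_ge_atTop N2,
      eventually_ge_atTop 3] with N hx2 hx3 hx4 hx5
    have hNr : (3 : ℝ) ≤ N := by exact_mod_cast hx5
    have hNr1 : (1 : ℝ) ≤ N := by linarith
    have hN0 : (0 : ℝ) < N := by linarith
    have hl := hN1 N hx3
    set G := (Finset.Icc 1 N).filter (fun n : ℕ => lam (3 * n ^ 2 + 3 * n + 1) = e) with hG
    set Bd := G.filter (fun n : ℕ => ∃ s : ℕ, (N : ℝ) ^ δ < s ∧ s ^ 2 ∣ 3 * n ^ 2 + 3 * n + 1)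
      with hBd
    set T := (Finset.Icc 1 N).filter (fun n : ℕ => ∃ s m : ℕ,
        3 * n ^ 2 + 3 * n + 1 = s ^ 2 * m ∧ (s : ℝ) ≤ (N : ℝ) ^ ε ∧
          ArithmeticFunction.moebius m = e) with hT
    have hb1 : (Bd.card : ℝ) ≤ 3 * (N : ℝ) ^ (1 - δ / 32) := by
      have hx1 := hN2 (3 * N) (by omega)
      have e0 : (((3 * N : ℕ) : ℝ)) ^ (1 - δ / 2 / 16) ≤ 3 * (N : ℝ) ^ (1 - δ / 32) := by
        have e1 : 1 - δ / 2 / 16 = 1 - δ / 32 := by ring
        rw [e1]
        push_cast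
        rw [Real.mul_rpow (by norm_num) hN0.le]
        apply mul_le_mul_of_nonneg_right _ (by positivity)
        calc (3 : ℝ) ^ (1 - δ / 32) ≤ (3 : ℝ) ^ (1 : ℝ) :=
              Real.rpow_le_rpow_of_exponent_le (by norm_num) (by linarith)
          _ = 3 := Real.rpow_one 3
      refine le_trans ?_ (hx1.trans e0)
      have hinj : Set.InjOn (fun n : ℕ => 6 * (n : ℤ) + 3) (Bd : Set ℕ) := by
        intro x _ y _ hxy
        simp only at hxy
        omega
      rw [← card_image_of_injOn hinj]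
      have hsub : Bd.image (fun n : ℕ => 6 * (n : ℤ) + 3) ⊆
          (Icc (-((3 * (3 * N) : ℕ) : ℤ)) ((3 * (3 * N) : ℕ) : ℤ)).filter
            (fun m => ∃ s : ℕ, ((3 * N : ℕ) : ℝ) ^ (δ / 2) < s ∧ (s : ℤ) ^ 2 ∣ m ^ 2 - (-3)) := by
        intro m hm
        rw [mem_image] at hm
        obtain ⟨n, hn, rfl⟩ := hm
        rw [hBd, mem_filter, hG, mem_filter, mem_Icc] at hn
        obtain ⟨⟨⟨hn1, hn2⟩, _⟩, s, hs1, hs2⟩ := hn
        rw [mem_filter, mem_Icc]
        refine ⟨⟨by push_cast; omega, by push_cast; omega⟩, s, lt_of_le_of_lt ?_ hs1, ?_⟩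
        · push_cast
          have e1 : (N : ℝ) ^ δ = (N : ℝ) ^ (δ / 2) * (N : ℝ) ^ (δ / 2) := by
            rw [← Real.rpow_add hN0]; congr 1; ring
          rw [e1, Real.mul_rpow (by norm_num) hN0.le]
          exact mul_le_mul_of_nonneg_right
            (Real.rpow_le_rpow (by norm_num) hNr (by linarith)) (by positivity)
        · have h3 : (s : ℤ) ^ 2 ∣ 3 * (n : ℤ) ^ 2 + 3 * n + 1 := by exact_mod_cast hs2
          have e1 : (6 * (n : ℤ) + 3) ^ 2 - (-3) = (3 * (n : ℤ) ^ 2 + 3 * n + 1) * 12 := by ring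
          rw [e1]
          exact Dvd.dvd.mul_right h3 12
      exact_mod_cast card_le_card hsub
    have hsubT : G \ Bd ⊆ T := by
      intro n hn
      rw [Finset.mem_sdiff] at hn
      obtain ⟨hnG, hnB⟩ := hn
      have hnG' := hnG
      rw [hG, mem_filter] at hnG'
      obtain ⟨hn1, hn2⟩ := hnG'
      rw [hT, mem_filter]
      refine ⟨hn1, ?_⟩
      have hf0 : 3 * n ^ 2 + 3 * n + 1 ≠ 0 := by omega
      obtain ⟨m, s, hms, hsq⟩ := Nat.sq_mul_squarefree (3 * n ^ 2 + 3 * n + 1)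
      refine ⟨s, m, hms.symm, ?_, ?_⟩
      · by_contra hc
        push Not at hc
        apply hnB
        rw [hBd, mem_filter]
        refine ⟨hnG, s, ?_, ?_⟩
        · refine lt_of_le_of_lt ?_ hc
          exact Real.rpow_le_rpow_of_exponent_le hNr1 hδε
        · exact ⟨m, hms.symm⟩
      · have hm0 : m ≠ 0 := hsq.ne_zero
        have hs0 : s ^ 2 ≠ 0 := by
          intro h0
          rw [h0, zero_mul] at hms
          exact hf0 hms.symm
        have hs00 : s ≠ 0 := by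
          rintro rfl
          exact hs0 (by norm_num)
        rw [ArithmeticFunction.moebius_apply_of_squarefree hsq]
        rw [← hms, lam_mul' _ _ hs0 hm0, pow_two, lam_mul' _ _ hs00 hs00] at hn2
        rcases lam_val s with h1 | h1 <;> rw [h1] at hn2 <;> simpa [lam] using hn2
    have hc1 : G.card ≤ T.card + Bd.card := by
      have h1 := card_le_card hsubT
      have h2 := Finset.le_card_sdiff Bd G
      omega
    have hc2 : (G.card : ℝ) ≤ T.card + Bd.card := by exact_mod_cast hc1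
    have h3 : (N : ℝ) ^ (1 - ε) ≤ (N : ℝ) ^ (1 - δ / 32) :=
      Real.rpow_le_rpow_of_exponent_le hNr1 (by linarith)
    linarith
  exact eventually_atTop.mp key

end Pool.Agent.H186R2.Par
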